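import Pool.Agent.J4H55.YK.W3a

set_option autoImplicit false
set_option linter.unusedSectionVars false

/-! # Project YK, (W3): the arcs of the level exactly `s / W` -/

namespace Pool.Agent.J4H55.YK

open MvPolynomial
open Pool.Agent.W428.MOT
open Pool.Agent.J4H50.YJ
open Pool.Agent.J4H50.YK

section Alg

variable {K : Type} [Field K] {σ : Type}

theorem Ld_T {F : Type} [Field F] {Q b : ℕ} (hQ : 0 < Q) (φ : PowerSeries F)
    (h : ¬ Q ∣ b → PowerSeries.coeff 0 φ = 0) :
    Ld Q (b : ℤ) (PowerSeries.coeff 0 φ) (PowerSeries.X ^ (b / Q) * φ) := by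
  refine ⟨fun r hr => ?_, fun r hr => ?_, fun hn => ?_⟩
  · have hr' : Q * r < b := by exact_mod_cast hr
    rw [PowerSeries.coeff_X_pow_mul']
    split_ifs with h1
    · have h2 : b < Q * (b / Q + 1) := by
        have := Nat.lt_mul_div_succ b hQ
        exact this
      have h3 : r < b / Q + 1 := lt_of_mul_lt_mul_left (hr'.trans h2) (Nat.zero_le Q)
      have h4 : r = b / Q := by omega
      rw [h4, Nat.sub_self]
      refine h fun h5 => ?_
      have h6 := Nat.mul_div_cancel' h5
      rw [h4] at hr'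
      omega
    · rfl
  · have hr' : Q * r = b := by exact_mod_cast hr
    have h1 : b / Q = r := by
      rw [← hr']
      exact Nat.mul_div_cancel_left r hQ
    rw [h1, PowerSeries.coeff_X_pow_mul', if_pos le_rfl, Nat.sub_self]
  · refine h fun h1 => ?_
    obtain ⟨r, hr⟩ := h1
    exact hn r (by rw [hr]; push_cast; ring)

theorem ev_aeval (ξ : Ac K σ) (g : σ → MvPolynomial (Option σ) K) (G : MvPolynomial σ K) :
    ev ξ (aeval g G) = aeval (fun m => ev ξ (g m)) G := by
  unfold ev
  induction G using MvPolynomial.induction_on with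
  | C a =>
    rw [algHom_C, algHom_C]
    exact AlgHom.commutes _ a
  | add p q hp hq => rw [map_add, map_add, map_add, hp, hq]
  | mul_X p i hp => rw [map_mul, map_mul, map_mul, aeval_X, aeval_X, hp]

/-- the polynomial which gives `G(T ξ)` -/
noncomputable def fp (w : σ → ℕ) (Q s : ℕ) (G : MvPolynomial σ K) : MvPolynomial (Option σ) K :=
  aeval (fun m => X none ^ (s * w m / Q) * X (some m)) G

theorem ev_fp (w : σ → ℕ) (Q s : ℕ) (G : MvPolynomial σ K) (ξ : Ac K σ) :
    ev ξ (fp w Q s G) = aeval (fun m => PowerSeries.X ^ (s * w m / Q) * ξ m) G := by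
  rw [fp, ev_aeval]
  congr 1
  congr 1
  funext m
  rw [ev, map_mul, map_pow, aeval_X, aeval_X]
  rfl

theorem c0upd [DecidableEq σ] (ξ : Ac K σ) (i : σ) (j : ℕ) (hj : 1 ≤ j) (c : AlgebraicClosure K) (m : σ) :
    PowerSeries.coeff 0 (Function.update ξ i (ξ i + PowerSeries.monomial j c) m) =
      PowerSeries.coeff 0 (ξ m) := by
  by_cases h : m = i
  · subst h
    rw [Function.update_self, map_add, PowerSeries.coeff_monomial, if_neg (by omega), add_zero]
  · rw [Function.update_of_ne h]

theorem mon_eq (j : ℕ) (c : AlgebraicClosure K) :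
    (PowerSeries.monomial j c : PowerSeries (AlgebraicClosure K)) =
      PowerSeries.X ^ j * PowerSeries.C c := by
  ext n
  rw [PowerSeries.coeff_X_pow_mul', PowerSeries.coeff_monomial]
  split_ifs with h3 h4 h4
  · rw [h3, Nat.sub_self, PowerSeries.coeff_zero_C]
  · omega
  · rw [PowerSeries.coeff_C, if_neg (by omega)]
  · rfl

theorem pair_T [DecidableEq σ] (w : σ → ℕ) {Q s : ℕ} (hQ : 0 < Q) (ξ : Ac K σ)
    (h : ∀ m, ¬ Q ∣ s * w m → PowerSeries.coeff 0 (ξ m) = 0) (i : σ) (j : ℕ) (hj : 1 ≤ j)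
    (c : AlgebraicClosure K) :
    Pair w Q s (fun m => PowerSeries.X ^ (s * w m / Q) * ξ m)
      (fun m => PowerSeries.X ^ (s * w m / Q) *
        Function.update ξ i (ξ i + PowerSeries.monomial j c) m)
      (fun m => PowerSeries.coeff 0 (ξ m)) i (j + s * w i / Q) c where
  hQ := hQ
  hx m := (Ld_T hQ (ξ m) (h m)).congr (by push_cast; ring) rfl rfl
  hx' m := by
    have h1 := c0upd ξ i j hj c m
    refine (Ld_T hQ (Function.update ξ i (ξ i + PowerSeries.monomial j c) m) ?_).congr
      (by push_cast; ring) h1 rfl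
    rw [h1]
    exact h m
  hi := by
    rw [Function.update_self, mon_eq]
    ring
  hne m hm := by rw [Function.update_of_ne hm]

/-- the effect of a change of one coefficient -/
theorem step [DecidableEq σ] (w : σ → ℕ) {D W s : ℕ} (hD : 0 < D) (hW : 0 < W) (hs : 1 ≤ s)
    (G : MvPolynomial σ K) (hG : ∀ a, coeff a G ≠ 0 → D ≤ Finsupp.weight w a) (ξ : Ac K σ)
    (h : ∀ m, ¬ D * W ∣ s * w m → PowerSeries.coeff 0 (ξ m) = 0) (i : σ) (j : ℕ) (hj : 1 ≤ j)
    (c : AlgebraicClosure K) :
    ∃ Y, ev (Function.update ξ i (ξ i + PowerSeries.monomial j c)) (fp w (D * W) s G) =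
        ev ξ (fp w (D * W) s G) + PowerSeries.X ^ (j + s * w i / (D * W)) * Y ∧
      Ld (D * W) ((s : ℤ) * D - s * w i) (c * aeval (fun m => PowerSeries.coeff 0 (ξ m))
        (pderiv i (weightedHomogeneousComponent w D G))) Y := by
  have hP := pair_T w (Nat.mul_pos hD hW) ξ h i j hj c
  obtain ⟨Y, h1, h2⟩ := tay hP hs D G hG
  refine ⟨Y, ?_, h2⟩
  rw [ev_fp, ev_fp]
  exact h1

end Alg

section Vol

variable {K : Type} [Field K] {R : Type} [CommRing R] (M : Meas K R) (v : R) (hv : M.L * v = 1) (hB : Bas)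
variable {σ : Type} [Fintype σ] [DecidableEq σ]

theorem constr_coord (m : σ) : Constr {z : Pt K σ | z m = 0} := by
  have h := Constr.zero (X m : MvPolynomial σ K)
  simpa using h

/-- leading coefficients: the mask, not zero -/
def S0 (w : σ → ℕ) (Q s : ℕ) : Set (Pt K σ) :=
  {z | (∀ m, ¬ Q ∣ s * w m → z m = 0) ∧ ∃ m, z m ≠ 0}

theorem constr_S0 (w : σ → ℕ) (Q s : ℕ) : Constr (S0 w Q s : Set (Pt K σ)) :=
  (Constr.all fun m => Constr.imp' fun _ => constr_coord m).and
    (Constr.ex fun m => Constr.not (constr_coord m))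

/-- the first derivative which does not vanish is `∂_i` -/
def YI (g : MvPolynomial σ K) (i : σ) : Set (Pt K σ) :=
  {z | aeval z (pderiv i g) ≠ 0 ∧
    ∀ i', Fintype.equivFin σ i' < Fintype.equivFin σ i → aeval z (pderiv i' g) = 0}

theorem constr_YI (g : MvPolynomial σ K) (i : σ) : Constr (YI g i) :=
  (Constr.not (Constr.zero (pderiv i g))).and
    (Constr.all fun i' => Constr.imp' fun _ => Constr.zero (pderiv i' g))

variable (w : σ → ℕ) (D W s : ℕ) (G : MvPolynomial σ K)

/-- the first `n` coefficients vanish -/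
def RS (S : Set (Pt K σ)) (n : ℕ) : Set (Ac K σ) :=
  {ξ | (fun r => PowerSeries.coeff 0 (ξ r)) ∈ S ∧
    ∀ m < n, PowerSeries.coeff m (ev ξ (fp w (D * W) s G)) = 0}

include hv hB in
theorem cyl_RS (S : Set (Pt K σ)) (hS : Constr S) (n : ℕ) : IsCyl (RS w D W s G S n) := by
  have hops := cyl_ops (σ := σ) M v hv hB.v1
  have h1 := ((hB.cc (K := K) (σ := σ)).2 _ hS).1
  have h2 := cyl_finInter M v hv hB.v1 (Finset.range n)
    (fun m => {x : Ac K σ | PowerSeries.coeff m (ev x (fp w (D * W) s G)) = 0})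
    (fun m _ => (hB.cc (K := K) (σ := σ)).1 _ _)
  have h3 := hops.2.1 _ _ h1 h2
  have e : {x : Ac K σ | (fun i => PowerSeries.coeff 0 (x i)) ∈ S} ∩
      {x | ∀ a ∈ Finset.range n, x ∈ {x : Ac K σ | PowerSeries.coeff a (ev x (fp w (D * W) s G)) = 0}} =
      RS w D W s G S n := by
    ext x
    simp only [Set.mem_inter_iff, Set.mem_ofPred_eq, Finset.mem_range, RS]
  rwa [e] at h3

variable (hD : 0 < D) (hW : 0 < W) (hs : 1 ≤ s)
  (hG : ∀ a, coeff a G ≠ 0 → D ≤ Finsupp.weight w a)

include hv hB hD hW hs hG in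
theorem vol_step (i : σ) (n : ℕ) (hn : s < n * W) :
    vol M v (RS w D W s G (S0 w (D * W) s ∩ YI (weightedHomogeneousComponent w D G) i) (n + 1)) =
      v * vol M v (RS w D W s G (S0 w (D * W) s ∩ YI (weightedHomogeneousComponent w D G) i) n) := by
  have hQ : 0 < D * W := Nat.mul_pos hD hW
  obtain ⟨S, hS⟩ : ∃ S, S = (S0 w (D * W) s ∩ YI (weightedHomogeneousComponent w D G) i :
    Set (Pt K σ)) := ⟨_, rfl⟩
  have hSc : Constr S := by
    rw [hS]
    exact (constr_S0 w (D * W) s).inter (constr_YI _ i)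
  rw [← hS]
  have hS1 : ∀ ξ : Ac K σ, (fun r => PowerSeries.coeff 0 (ξ r)) ∈ S →
      (∀ m, ¬ D * W ∣ s * w m → PowerSeries.coeff 0 (ξ m) = 0) ∧
      aeval (fun r => PowerSeries.coeff 0 (ξ r)) (pderiv i (weightedHomogeneousComponent w D G)) ≠ 0 := by
    intro ξ hξ
    rw [hS] at hξ
    exact ⟨hξ.1.1, hξ.2.1⟩
  by_cases hc : ∃ c : ℕ, ((D * W : ℕ) : ℤ) * c = (s : ℤ) * D - s * w i
  · obtain ⟨c, hc⟩ := hc
    have hd : D * W * (s * w i / (D * W)) ≤ s * w i := Nat.mul_div_le _ _
    have h1 : D * W * c + s * w i = s * D := by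
      have : ((D * W * c + s * w i : ℕ) : ℤ) = ((s * D : ℕ) : ℤ) := by
        push_cast at hc ⊢
        linarith
      exact_mod_cast this
    have h2 : c + s * w i / (D * W) < n := by
      have h3 : D * W * (c + s * w i / (D * W)) < D * W * n := by
        rw [mul_add]
        nlinarith
      exact lt_of_mul_lt_mul_left h3 (Nat.zero_le _)
    obtain ⟨j, rfl⟩ : ∃ j, n = c + s * w i / (D * W) + j := ⟨n - (c + s * w i / (D * W)), by omega⟩
    have hj : 1 ≤ j := by omega
    have h := hB.lin M v hv (RS w D W s G S (c + s * w i / (D * W) + j))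
      (cyl_RS M v hv hB w D W s G S hSc _) i j (c + s * w i / (D * W) + j)
      (fp w (D * W) s G) (pderiv i (weightedHomogeneousComponent w D G)) hj
      (fun x hx => (hS1 x hx.1).2) ?_
    · rw [← h]
      congr 1
      ext x
      constructor
      · rintro ⟨h3, h4⟩
        exact ⟨⟨h3, fun m hm => h4 m (by omega)⟩, h4 _ (by omega)⟩
      · rintro ⟨⟨h3, h4⟩, h5⟩
        refine ⟨h3, fun m hm => ?_⟩
        rcases Nat.lt_or_ge m (c + s * w i / (D * W) + j) with h6 | h6
        · exact h4 m h6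
        · have : m = c + s * w i / (D * W) + j := by omega
          rw [this]
          exact h5
    · intro x hx c'
      obtain ⟨Y, h3, h4⟩ := step w hD hW hs G hG x (hS1 x hx.1).1 i j hj c'
      refine ⟨⟨?_, fun m hm => ?_⟩, ?_⟩
      · have h5 : (fun r => PowerSeries.coeff 0
            (Function.update x i (x i + PowerSeries.monomial j c') r)) =
            fun r => PowerSeries.coeff 0 (x r) := funext fun r => c0upd x i j hj c' r
        rw [h5]
        exact hx.1
      · rw [h3, map_add, hx.2 m hm, zero_add, PowerSeries.coeff_X_pow_mul']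
        split_ifs with h5
        · refine h4.lt _ ?_
          rw [← hc]
          have h6 : m - (j + s * w i / (D * W)) < c := by omega
          have h7 : ((m - (j + s * w i / (D * W)) : ℕ) : ℤ) < c := by exact_mod_cast h6
          exact mul_lt_mul_of_pos_left h7 (by exact_mod_cast hQ)
        · rfl
      · rw [h3, map_add, PowerSeries.coeff_X_pow_mul', if_pos (by omega)]
        congr 1
        refine h4.eq _ ?_
        rw [show c + s * w i / (D * W) + j - (j + s * w i / (D * W)) = c by omega]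
        exact hc
  · have he : ∀ n, RS w D W s G S n = ∅ := by
      intro n
      rw [Set.eq_empty_iff_forall_notMem]
      intro x hx
      obtain ⟨Y, h3, h4⟩ := step w hD hW hs G hG x (hS1 x hx.1).1 i 1 le_rfl 1
      have h5 := h4.no fun r hr => hc ⟨r, hr⟩
      rw [one_mul] at h5
      exact (hS1 x hx.1).2 h5
    rw [he, he, (hB.v1 M v hv (σ := σ)).2.2.2.2, mul_zero]

variable (hsing : ∀ z : Pt K σ, (∀ i, aeval z (pderiv i (weightedHomogeneousComponent w D G)) = 0) → z = 0)

include hv hB hsing in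
theorem vol_part (n : ℕ) : vol M v (RS w D W s G (S0 w (D * W) s) n) =
    ∑ i : σ, vol M v (RS w D W s G (S0 w (D * W) s ∩ YI (weightedHomogeneousComponent w D G) i) n) := by
  rw [← vol_finUnion M v hv hB.v1 (Finset.univ : Finset σ)
    (fun i => RS w D W s G (S0 w (D * W) s ∩ YI (weightedHomogeneousComponent w D G) i) n)
    (fun i _ => cyl_RS M v hv hB w D W s G _ ((constr_S0 w (D * W) s).inter (constr_YI _ i)) n)]
  · congr 1
    ext ξ
    constructor
    · rintro ⟨h1, h2⟩
      classical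
      have h3 : ((Finset.univ : Finset σ).filter fun l => aeval (fun r => PowerSeries.coeff 0 (ξ r))
          (pderiv l (weightedHomogeneousComponent w D G)) ≠ 0).Nonempty := by
        by_contra h4
        rw [Finset.not_nonempty_iff_eq_empty] at h4
        have h5 := hsing (fun r => PowerSeries.coeff 0 (ξ r)) fun l => by
          by_contra h6
          have : l ∈ (∅ : Finset σ) := h4 ▸ Finset.mem_filter.2 ⟨Finset.mem_univ _, h6⟩
          simp at this
        obtain ⟨m, hm⟩ := h1.2
        exact hm (congrFun h5 m)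
      obtain ⟨l, hl, hmin⟩ := Finset.exists_min_image _ (fun l => Fintype.equivFin σ l) h3
      refine ⟨l, Finset.mem_univ _, ⟨h1, (Finset.mem_filter.1 hl).2, fun l' hl' => ?_⟩, h2⟩
      by_contra h4
      exact absurd (hmin l' (Finset.mem_filter.2 ⟨Finset.mem_univ _, h4⟩)) (not_le.2 hl')
    · rintro ⟨l, -, h1, h2⟩
      exact ⟨h1.1, h2⟩
  · intro a _ b _ hab
    rw [Set.disjoint_left]
    rintro x ⟨⟨-, h1⟩, -⟩ ⟨⟨-, h2⟩, -⟩
    rcases lt_trichotomy (Fintype.equivFin σ a) (Fintype.equivFin σ b) with h3 | h3 | h3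
    · exact h1.1 (h2.2 a h3)
    · exact hab ((Fintype.equivFin σ).injective h3)
    · exact h2.1 (h1.2 b h3)

include hv hB hD hW hs hG hsing in
theorem vol_RS (k t : ℕ) (hk : s < k * W) : vol M v (RS w D W s G (S0 w (D * W) s) (k + t)) =
    v ^ t * vol M v (RS w D W s G (S0 w (D * W) s) k) := by
  induction t with
  | zero => rw [add_zero, pow_zero, one_mul]
  | succ t ih =>
    have h1 : s < (k + t) * W := by nlinarith
    rw [← add_assoc, vol_part M v hv hB w D W s G hsing (k + t + 1)]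
    rw [Finset.sum_congr rfl fun i _ => vol_step M v hv hB w D W s G hD hW hs hG i (k + t) h1]
    rw [← Finset.mul_sum, ← vol_part M v hv hB w D W s G hsing (k + t), ih, pow_succ]
    ring

end Vol

section Level

variable {K : Type} [Field K] {σ : Type}

theorem level_eq (w : σ → ℕ) (D W s : ℕ) (hw : ∀ i, 0 < w i) (hD : 0 < D) (hW : 0 < W)
    (hdvd : ∀ i, w i ∣ W) (G : MvPolynomial σ K) (C : PowerSeries (AlgebraicClosure K) → Prop) :
    {x ∈ (Sf w D W s : Set (Ac K σ)) | x ∉ Sf w D W (s + 1) ∧ C (aeval x G)} =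
      {x | ∃ ξ ∈ {ξ : Ac K σ | (fun r => PowerSeries.coeff 0 (ξ r)) ∈ S0 w (D * W) s ∧
        C (ev ξ (fp w (D * W) s G))}, ∀ m, x m = PowerSeries.X ^ (s * w m / (D * W)) * ξ m} := by
  have hQ : 0 < D * W := Nat.mul_pos hD hW
  ext x
  constructor
  · rintro ⟨h1, h2, h3⟩
    have h4 : ∀ m, PowerSeries.X ^ (s * w m / (D * W)) ∣ x m := by
      intro m
      rw [PowerSeries.X_pow_dvd_iff]
      intro r hr
      refine h1 m r ?_
      calc D * W * r < D * W * (s * w m / (D * W)) := Nat.mul_lt_mul_of_pos_left hr hQ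
        _ ≤ s * w m := Nat.mul_div_le _ _
    choose ξ hξ using h4
    have hco : ∀ m, PowerSeries.coeff (s * w m / (D * W)) (x m) = PowerSeries.coeff 0 (ξ m) := by
      intro m
      rw [hξ m, PowerSeries.coeff_X_pow_mul', if_pos le_rfl, Nat.sub_self]
    refine ⟨ξ, ⟨⟨fun m hm => ?_, ?_⟩, ?_⟩, hξ⟩
    · show PowerSeries.coeff 0 (ξ m) = 0
      rw [← hco m]
      refine h1 m _ ?_
      refine lt_of_le_of_ne (Nat.mul_div_le _ _) fun h5 => hm ?_
      rw [← h5]
      exact Dvd.intro _ rfl
    · by_contra h5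
      push Not at h5
      apply h2
      intro m r hr
      by_contra h6
      have h7 : s * w m ≤ D * W * r := by
        by_contra h8
        exact h6 (h1 m r (not_le.1 h8))
      obtain ⟨W', hW'⟩ := hdvd m
      have h8 : D * W * r = w m * (D * W' * r) := by
        rw [hW']
        ring
      rw [h8] at h7 hr
      have h9 : s ≤ D * W' * r := by
        have : w m * s ≤ w m * (D * W' * r) := by rw [mul_comm (w m) s]; exact h7
        exact le_of_mul_le_mul_left this (hw m)
      have h10 : D * W' * r < s + 1 := by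
        have : w m * (D * W' * r) < w m * (s + 1) := by rw [mul_comm (w m) (s + 1)]; exact hr
        exact lt_of_mul_lt_mul_left this (Nat.zero_le _)
      have h11 : D * W' * r = s := by omega
      have h12 : D * W * r = s * w m := by rw [h8, h11, mul_comm]
      have h13 : s * w m / (D * W) = r := by
        rw [← h12]
        exact Nat.mul_div_cancel_left r hQ
      apply h6
      rw [← h13, hco m]
      exact h5 m
    · rw [ev_fp]
      have h5 : (fun m => PowerSeries.X ^ (s * w m / (D * W)) * ξ m) = x :=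
        funext fun m => (hξ m).symm
      rw [h5]
      exact h3
  · rintro ⟨ξ, ⟨⟨h1, h2⟩, h3⟩, h4⟩
    have h5 : x = fun m => PowerSeries.X ^ (s * w m / (D * W)) * ξ m := funext h4
    have hL : ∀ m, Ld (D * W) ((s * w m : ℕ) : ℤ) (PowerSeries.coeff 0 (ξ m)) (x m) := by
      intro m
      rw [h4 m]
      exact Ld_T hQ (ξ m) (h1 m)
    refine ⟨fun m r hr => (hL m).lt r (by exact_mod_cast hr), fun h6 => ?_, ?_⟩
    · obtain ⟨m, hm⟩ := h2
      have h7 : D * W ∣ s * w m := by
        by_contra h8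
        exact hm (h1 m h8)
      have h8 := Nat.mul_div_cancel' h7
      have h9 : D * W * (s * w m / (D * W)) < (s + 1) * w m := by
        rw [h8]
        have := hw m
        nlinarith
      have h10 := h6 m _ h9
      have h11 := (hL m).eq (s * w m / (D * W)) (by exact_mod_cast h8)
      rw [h10] at h11
      exact hm h11.symm
    · rw [ev_fp] at h3
      rw [h5]
      exact h3

end Level

theorem t_W3 : Bas → S_W0 → S_W3 := by
  intro hB _ K _ R _ M v hv σ _ G w D W hw hD hW hdvd hG hsing s k l hs hk _ hkl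
  classical
  have hw0 : ∀ i, 0 < w i := fun i => (hw i).1
  rw [level_eq w D W s hw0 hD hW hdvd G (fun y => Od y l),
    level_eq w D W s hw0 hD hW hdvd G (fun y => ∀ j < k, PowerSeries.coeff j y = 0)]
  have hc : ∀ n, IsCyl (RS w D W s G (S0 w (D * W) s) n) := fun n =>
    cyl_RS M v hv hB w D W s G _ (constr_S0 w (D * W) s) n
  have e : {ξ : Ac K σ | (fun r => PowerSeries.coeff 0 (ξ r)) ∈ S0 w (D * W) s ∧
      Od (ev ξ (fp w (D * W) s G)) l} =
      {x | x ∈ RS w D W s G (S0 w (D * W) s) l ∧ x ∉ RS w D W s G (S0 w (D * W) s) (l + 1)} := by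
    ext x
    constructor
    · rintro ⟨h1, h2, h3⟩
      exact ⟨⟨h1, h2⟩, fun h4 => h3 (h4.2 l (by omega))⟩
    · rintro ⟨⟨h1, h2⟩, h3⟩
      refine ⟨h1, h2, fun h4 => h3 ⟨h1, fun m hm => ?_⟩⟩
      rcases Nat.lt_or_ge m l with h5 | h5
      · exact h2 m h5
      · have : m = l := by omega
        rw [this]
        exact h4
  have hsc1 := hB.sc M v hv (fun m => s * w m / (D * W)) _
    (show IsCyl {ξ : Ac K σ | (fun r => PowerSeries.coeff 0 (ξ r)) ∈ S0 w (D * W) s ∧
      Od (ev ξ (fp w (D * W) s G)) l} from by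
        rw [e]
        exact (cyl_ops M v hv hB.v1).2.1 _ _ (hc l) ((cyl_ops M v hv hB.v1).1 _ (hc (l + 1))))
  have hsc2 := hB.sc M v hv (fun m => s * w m / (D * W)) _ (hc k)
  have h1 : vol M v {x : Ac K σ | ∃ ξ ∈ {ξ : Ac K σ | (fun r => PowerSeries.coeff 0 (ξ r)) ∈
      S0 w (D * W) s ∧ ∀ j < k, PowerSeries.coeff j (ev ξ (fp w (D * W) s G)) = 0},
      ∀ m, x m = PowerSeries.X ^ (s * w m / (D * W)) * ξ m} =
      v ^ (∑ m, s * w m / (D * W)) * vol M v (RS w D W s G (S0 w (D * W) s) k) := hsc2.2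
  rw [h1, hsc1.2, e, vol_diff M v hv hB.v1 _ _ (hc l) (hc (l + 1))
    (fun x hx => ⟨hx.1, fun m hm => hx.2 m (by omega)⟩)]
  obtain ⟨t, rfl⟩ : ∃ t, l = k + t := ⟨l - k, by omega⟩
  rw [add_assoc, vol_RS M v hv hB w D W s G hD hW hs hG hsing k t hk,
    vol_RS M v hv hB w D W s G hD hW hs hG hsing k (t + 1) hk, Nat.add_sub_cancel_left, pow_succ]
  ring

end Pool.Agent.J4H55.YK
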