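import Pool.Agent.J4H50.YK.Stm

set_option autoImplicit false
set_option linter.unusedSectionVars false

/-! # Project YK, (W3): orders with respect to weights -/

namespace Pool.Agent.J4H55.YK

open MvPolynomial
open Pool.Agent.W428.MOT
open Pool.Agent.J4H50.YJ
open Pool.Agent.J4H50.YK

section Lead

variable {F : Type} [Field F]

/-- `Q ord φ ≥ α`, and `A` is the coefficient of `t ^ (α / Q)` -/
structure Ld (Q : ℕ) (α : ℤ) (A : F) (φ : PowerSeries F) : Prop where
  lt : ∀ r : ℕ, (Q : ℤ) * r < α → PowerSeries.coeff r φ = 0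
  eq : ∀ r : ℕ, (Q : ℤ) * r = α → PowerSeries.coeff r φ = A
  no : (∀ r : ℕ, (Q : ℤ) * r ≠ α) → A = 0

variable {Q : ℕ} {α β : ℤ} {A B : F} {φ ψ : PowerSeries F}

theorem Ld.congr (h : Ld Q α A φ) (h1 : α = β) (h2 : A = B) (h3 : φ = ψ) : Ld Q β B ψ := by
  subst h1 h2 h3
  exact h

theorem Ld.add (h1 : Ld Q α A φ) (h2 : Ld Q α B ψ) : Ld Q α (A + B) (φ + ψ) where
  lt r hr := by rw [map_add, h1.lt r hr, h2.lt r hr, add_zero]
  eq r hr := by rw [map_add, h1.eq r hr, h2.eq r hr]
  no h := by rw [h1.no h, h2.no h, add_zero]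

theorem Ld.raise (h : Ld Q α A φ) (hab : β < α) : Ld Q β 0 φ where
  lt r hr := h.lt r (hr.trans hab)
  eq r hr := h.lt r (by rw [hr]; exact hab)
  no _ := rfl

theorem Ld_zero : Ld Q α (0 : F) 0 where
  lt r _ := by rw [map_zero]
  eq r _ := by rw [map_zero]
  no _ := rfl

theorem Ld_C (hQ : 0 < Q) (c : F) : Ld Q 0 c (PowerSeries.C c) where
  lt r hr := by
    exfalso
    have : (0 : ℤ) ≤ (Q : ℤ) * r := by positivity
    omega
  eq r hr := by
    have h1 : (r : ℤ) = 0 := by
      rcases mul_eq_zero.1 hr with h | h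
      · omega
      · exact h
    have h2 : r = 0 := by exact_mod_cast h1
    rw [h2, PowerSeries.coeff_zero_C]
  no h := by
    exfalso
    exact h 0 (by simp)

theorem Ld.sum {ι : Type} (S : Finset ι) (A : ι → F) (φ : ι → PowerSeries F)
    (h : ∀ a ∈ S, Ld Q α (A a) (φ a)) : Ld Q α (∑ a ∈ S, A a) (∑ a ∈ S, φ a) := by
  classical
  induction S using Finset.induction_on with
  | empty => exact Ld_zero
  | insert a S ha ih =>
    rw [Finset.sum_insert ha, Finset.sum_insert ha]
    exact (h a (Finset.mem_insert_self _ _)).add (ih fun b hb => h b (Finset.mem_insert_of_mem hb))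

theorem Ld.mul (hQ : 0 < Q) (h1 : Ld Q α A φ) (h2 : Ld Q β B ψ) : Ld Q (α + β) (A * B) (φ * ψ) := by
  have hQ' : (Q : ℤ) ≠ 0 := by exact_mod_cast hQ.ne'
  have key2 : ∀ a b : ℕ, (Q : ℤ) * a + Q * b = α + β → (Q : ℤ) * a ≠ α →
      PowerSeries.coeff a φ * PowerSeries.coeff b ψ = 0 := by
    intro a b h hne
    rcases lt_or_gt_of_ne hne with h3 | h3
    · rw [h1.lt a h3, zero_mul]
    · rw [h2.lt b (by linarith), mul_zero]
  have hanti : ∀ (r : ℕ) (p : ℕ × ℕ), p ∈ Finset.HasAntidiagonal.antidiagonal r →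
      (Q : ℤ) * p.1 + Q * p.2 = Q * r := by
    intro r p hp
    have h3 : p.1 + p.2 = r := Finset.HasAntidiagonal.mem_antidiagonal.1 hp
    have h4 : (p.1 : ℤ) + p.2 = r := by exact_mod_cast h3
    rw [← mul_add, h4]
  refine ⟨fun r hr => ?_, fun r hr => ?_, fun h => ?_⟩
  · rw [PowerSeries.coeff_mul]
    refine Finset.sum_eq_zero fun p hp => ?_
    have h3 := hanti r p hp
    rcases lt_or_ge ((Q : ℤ) * p.1) α with h4 | h4
    · rw [h1.lt _ h4, zero_mul]
    · rw [h2.lt _ (by linarith), mul_zero]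
  · rw [PowerSeries.coeff_mul]
    by_cases ha : ∃ a : ℕ, (Q : ℤ) * a = α
    · by_cases hb : ∃ b : ℕ, (Q : ℤ) * b = β
      · obtain ⟨a, ha⟩ := ha
        obtain ⟨b, hb⟩ := hb
        have hab : a + b = r := by
          have h3 : (Q : ℤ) * ((a + b : ℕ) : ℤ) = Q * r := by
            push_cast
            rw [mul_add, ha, hb, hr]
          have h4 := mul_left_cancel₀ hQ' h3
          exact_mod_cast h4
        rw [Finset.sum_eq_single (a, b)]
        · rw [h1.eq a ha, h2.eq b hb]
        · intro p hp hne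
          have h3 := hanti r p hp
          refine key2 _ _ (h3.trans hr) fun h4 => hne ?_
          have h5 : (p.1 : ℤ) = a := mul_left_cancel₀ hQ' (h4.trans ha.symm)
          have h6 : p.1 = a := by exact_mod_cast h5
          have h7 : p.1 + p.2 = r := Finset.HasAntidiagonal.mem_antidiagonal.1 hp
          exact Prod.ext h6 (by omega)
        · intro h
          exact absurd (Finset.HasAntidiagonal.mem_antidiagonal.2 hab) h
      · rw [h2.no (fun b hb' => hb ⟨b, hb'⟩), mul_zero]
        refine Finset.sum_eq_zero fun p hp => ?_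
        have h3 := hanti r p hp
        refine key2 _ _ (h3.trans hr) fun h4 => hb ⟨p.2, by linarith⟩
    · rw [h1.no (fun a ha' => ha ⟨a, ha'⟩), zero_mul]
      refine Finset.sum_eq_zero fun p hp => ?_
      have h3 := hanti r p hp
      exact key2 _ _ (h3.trans hr) fun h4 => ha ⟨p.1, h4⟩
  · by_cases ha : ∃ a : ℕ, (Q : ℤ) * a = α
    · by_cases hb : ∃ b : ℕ, (Q : ℤ) * b = β
      · obtain ⟨a, ha⟩ := ha
        obtain ⟨b, hb⟩ := hb
        exact absurd (by push_cast; rw [mul_add, ha, hb]) (h (a + b))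
      · rw [h2.no (fun b hb' => hb ⟨b, hb'⟩), mul_zero]
    · rw [h1.no (fun a ha' => ha ⟨a, ha'⟩), zero_mul]

end Lead

section Tay

variable {K : Type} [Field K] {σ : Type}

/-- two arcs with the same leading coefficients, which differ in one coordinate -/
structure Pair (w : σ → ℕ) (Q s : ℕ) (x x' : Ac K σ) (z : Pt K σ) (i : σ) (j : ℕ)
    (c : AlgebraicClosure K) : Prop where
  hQ : 0 < Q
  hx : ∀ m, Ld Q ((s : ℤ) * w m) (z m) (x m)
  hx' : ∀ m, Ld Q ((s : ℤ) * w m) (z m) (x' m)
  hi : x' i = x i + PowerSeries.X ^ j * PowerSeries.C c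
  hne : ∀ m, m ≠ i → x' m = x m

/-- the claim for a weighted homogeneous polynomial -/
structure Cl (w : σ → ℕ) (Q s : ℕ) (x x' : Ac K σ) (z : Pt K σ) (i : σ) (j : ℕ)
    (c : AlgebraicClosure K) (p : MvPolynomial σ K) (N : ℕ) : Prop where
  a : Ld Q ((s : ℤ) * N) (aeval z p) (aeval x p)
  b : Ld Q ((s : ℤ) * N) (aeval z p) (aeval x' p)
  d : ∃ Y, aeval x' p = aeval x p + PowerSeries.X ^ j * Y ∧
    Ld Q ((s : ℤ) * N - s * w i) (c * aeval z (pderiv i p)) Y

variable {w : σ → ℕ} {Q s : ℕ} {x x' : Ac K σ} {z : Pt K σ} {i : σ} {j : ℕ}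
  {c : AlgebraicClosure K} (hP : Pair w Q s x x' z i j c)

include hP

theorem Cl.mul {p q : MvPolynomial σ K} {N N' : ℕ} (h1 : Cl w Q s x x' z i j c p N)
    (h2 : Cl w Q s x x' z i j c q N') : Cl w Q s x x' z i j c (p * q) (N + N') := by
  obtain ⟨Y1, e1, l1⟩ := h1.d
  obtain ⟨Y2, e2, l2⟩ := h2.d
  refine ⟨(h1.a.mul hP.hQ h2.a).congr (by push_cast; ring) (map_mul _ _ _).symm (map_mul _ _ _).symm,
    (h1.b.mul hP.hQ h2.b).congr (by push_cast; ring) (map_mul _ _ _).symm (map_mul _ _ _).symm,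
    Y1 * aeval x' q + aeval x p * Y2, ?_, ?_⟩
  · rw [map_mul, map_mul]
    calc aeval x' p * aeval x' q = aeval x p * aeval x' q + PowerSeries.X ^ j * Y1 * aeval x' q := by
          rw [e1]; ring
      _ = aeval x p * (aeval x q + PowerSeries.X ^ j * Y2) +
          PowerSeries.X ^ j * Y1 * aeval x' q := by rw [← e2]
      _ = _ := by ring
  · have l3 : Ld Q ((s : ℤ) * ((N + N' : ℕ) : ℤ) - s * w i)
        (c * aeval z (pderiv i p) * aeval z q) (Y1 * aeval x' q) :=
      (l1.mul hP.hQ h2.b).congr (by push_cast; ring) rfl rfl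
    have l4 : Ld Q ((s : ℤ) * ((N + N' : ℕ) : ℤ) - s * w i)
        (aeval z p * (c * aeval z (pderiv i q))) (aeval x p * Y2) :=
      (h1.a.mul hP.hQ l2).congr (by push_cast; ring) rfl rfl
    refine (l3.add l4).congr rfl ?_ rfl
    rw [pderiv_mul, map_add, map_mul, map_mul]
    ring

theorem Cl_C (a : K) : Cl w Q s x x' z i j c (C a) 0 := by
  have h1 : ∀ y : Ac K σ, Ld Q ((s : ℤ) * ((0 : ℕ) : ℤ)) (aeval z (C a : MvPolynomial σ K))
      (aeval y (C a : MvPolynomial σ K)) := fun y => by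
    refine (Ld_C hP.hQ (algebraMap K (AlgebraicClosure K) a)).congr (by push_cast; ring) ?_ ?_
    · rw [algHom_C]
    · rw [algHom_C, PowerSeries.algebraMap_apply]
  refine ⟨h1 x, h1 x', 0, ?_, ?_⟩
  · rw [algHom_C, algHom_C, mul_zero, add_zero]
  · rw [pderiv_C, map_zero, mul_zero]
    exact Ld_zero

theorem Cl_X (m : σ) : Cl w Q s x x' z i j c (X m) (w m) := by
  refine ⟨?_, ?_, ?_⟩
  · rw [aeval_X, aeval_X]
    exact hP.hx m
  · rw [aeval_X, aeval_X]
    exact hP.hx' m
  · rw [aeval_X, aeval_X]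
    by_cases h : m = i
    · subst h
      refine ⟨PowerSeries.C c, hP.hi, ?_⟩
      rw [pderiv_X_self, map_one, mul_one, sub_self]
      exact Ld_C hP.hQ c
    · refine ⟨0, ?_, ?_⟩
      · rw [hP.hne m h, mul_zero, add_zero]
      · rw [pderiv_X_of_ne h, map_zero, mul_zero]
        exact Ld_zero

theorem Cl_pow (m : σ) (e : ℕ) : Cl w Q s x x' z i j c (X m ^ e) (e * w m) := by
  induction e with
  | zero =>
    have h := Cl_C (σ := σ) hP (1 : K)
    rw [pow_zero, Nat.zero_mul]
    rw [map_one] at h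
    exact h
  | succ e ih =>
    have h := Cl.mul hP ih (Cl_X hP m)
    rw [pow_succ, Nat.succ_mul]
    exact h

theorem Cl_mono (a : σ →₀ ℕ) : ∀ r : K, Cl w Q s x x' z i j c (monomial a r) (Finsupp.weight w a) := by
  induction a using Finsupp.induction_linear with
  | zero =>
    intro r
    have h := Cl_C (σ := σ) hP r
    rw [map_zero]
    exact h
  | add f g hf hg =>
    intro r
    have h := Cl.mul hP (hf 1) (hg r)
    rw [monomial_mul, one_mul] at h
    rw [map_add]
    exact h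
  | single m e =>
    intro r
    have h := Cl.mul hP (Cl_C (σ := σ) hP r) (Cl_pow hP m e)
    rw [C_mul_X_pow_eq_monomial, Nat.zero_add] at h
    have h2 : Finsupp.weight w (Finsupp.single m e) = e * w m := by
      rw [Finsupp.weight_apply, Finsupp.sum_single_index]
      · rfl
      · simp
    rw [h2]
    exact h

theorem tay (hs : 1 ≤ s) (D : ℕ) (G : MvPolynomial σ K)
    (hG : ∀ a, coeff a G ≠ 0 → D ≤ Finsupp.weight w a) :
    ∃ Y, aeval x' G = aeval x G + PowerSeries.X ^ j * Y ∧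
      Ld Q ((s : ℤ) * D - s * w i)
        (c * aeval z (pderiv i (weightedHomogeneousComponent w D G))) Y := by
  classical
  choose Y hY1 hY2 using fun a => (Cl_mono hP a (coeff a G)).d
  refine ⟨∑ a ∈ G.support, Y a, ?_, ?_⟩
  · have h1 : ∀ y : Ac K σ, aeval y G = ∑ a ∈ G.support, aeval y (monomial a (coeff a G)) := fun y => by
      conv_lhs => rw [← support_sum_monomial_coeff G]
      rw [map_sum]
    rw [h1 x, h1 x', Finset.mul_sum, ← Finset.sum_add_distrib]
    exact Finset.sum_congr rfl fun a _ => hY1 a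
  · have h1 : c * aeval z (pderiv i (weightedHomogeneousComponent w D G)) =
        ∑ a ∈ G.support, if Finsupp.weight w a = D then
          c * aeval z (pderiv i (monomial a (coeff a G))) else 0 := by
      rw [weightedHomogeneousComponent_apply, map_sum, map_sum, Finset.mul_sum, Finset.sum_filter]
    rw [h1]
    refine Ld.sum _ _ _ fun a ha => ?_
    have h2 := hG a (mem_support_iff.1 ha)
    split_ifs with h3
    · have h4 := hY2 a
      rw [h3] at h4
      exact h4
    · refine (hY2 a).raise ?_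
      have h4 : D + 1 ≤ Finsupp.weight w a := by omega
      have h5 : (D : ℤ) + 1 ≤ (Finsupp.weight w a : ℤ) := by exact_mod_cast h4
      have h6 : (1 : ℤ) ≤ s := by exact_mod_cast hs
      nlinarith

end Tay

end Pool.Agent.J4H55.YK
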